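import Pool.Agent.W998.KG.Stm3

set_option autoImplicit false

namespace Pool.Agent.W992.KG.TRE

open Pool.Agent.W998.KG
open Pool.Agent.Results.MP_633d19_co.SmallDegree
open Pool.Agent.Results.MP_633d19_co.SmallDegree.MGraph

theorem aux {V E : Type} {G : MGraph V E} {k : ℕ}
    {l r : ℕ} {y : ℕ → V} {f h : ℕ → E} {pr : ℕ → ℕ}
    {α β : Fin k} {c : E → Option (Fin k)} (hl : 3 ≤ l) (hodd : l % 2 = 1) (hlr : l ≤ r + 1)
    (H : Tr G l r y f h pr α β c) :
    ∃ c1 : E → Option (Fin k),
      TT G r y (fun i => if i + 1 < l then f i else h i)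
        (fun i => if i + 1 < l then i else pr i) c1 ∧
      G.Miss c1 (y 0) α ∧ G.Miss c1 (y 1) β ∧
      (∀ v a, a ≠ α → a ≠ β → G.Miss c v a → G.Miss c1 v a) ∧
      (∀ j, l ≤ j → j ≤ r → ∀ a, G.Miss c (y j) a → G.Miss c1 (y j) a) := by
  classical
  obtain ⟨S, inj, leh, edh, colh⟩ := H
  have hne := S.ne
  have finj := G.edge_inj hl S.inj S.ed
  -- colours on the cycle edges
  let C : ℕ → Option (Fin k) := fun j => if j = 0 then none else if j % 2 = 1 then some α else some β
  let d : E → Option (Fin k) := fun e =>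
    if h : ∃ j, j < l ∧ e = f j then C h.choose else c e
  have d1 : ∀ j < l, d (f j) = C j := by
    intro j hj
    have hh : ∃ j', j' < l ∧ f j = f j' := ⟨j, hj, rfl⟩
    simp only [d]
    rw [dif_pos hh]
    have := finj _ hj _ hh.choose_spec.1 hh.choose_spec.2
    rw [← this]
  have d2 : ∀ e, (¬ ∃ j, j < l ∧ e = f j) → d e = c e := by
    intro e he
    simp only [d]
    rw [dif_neg he]
  have C0 : C 0 = none := by simp [C]
  have Codd : ∀ j, j % 2 = 1 → C j = some α := by
    intro j hj
    have : j ≠ 0 := by rintro rfl; simp at hj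
    simp [C, this, hj]
  have Cev : ∀ j, j ≠ 0 → j % 2 = 0 → C j = some β := by
    intro j h0 hj
    simp [C, h0, hj]
  have Ccase : ∀ j, (j = 0 ∧ C j = none) ∨ (j % 2 = 1 ∧ C j = some α) ∨
      (j ≠ 0 ∧ j % 2 = 0 ∧ C j = some β) := by
    intro j
    by_cases h0 : j = 0
    · left; exact ⟨h0, by rw [h0, C0]⟩
    · rcases Nat.mod_two_eq_zero_or_one j with h1 | h1
      · right; right; exact ⟨h0, h1, Cev j h0 h1⟩
      · right; left; exact ⟨h1, Codd j h1⟩
  have cval : ∀ j a, C j = some a → a = α ∨ a = β := by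
    intro j a hj
    rcases Ccase j with ⟨_, h1⟩ | ⟨_, h1⟩ | ⟨_, _, h1⟩
    · rw [h1] at hj; simp at hj
    · rw [h1] at hj; left; exact (Option.some.inj hj).symm
    · rw [h1] at hj; right; exact (Option.some.inj hj).symm
  -- cyclically consecutive edges have different colours
  have C_ne : ∀ j < l, ∀ a, C j = some a → C (nx l j) = some a → False := by
    intro j hj a h1 h2
    have hcase : (j + 1 = l ∧ nx l j = 0) ∨ (j + 1 < l ∧ nx l j = j + 1) := by
      unfold nx
      split_ifs <;> omega
    rcases hcase with ⟨h3, h4⟩ | ⟨h3, h4⟩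
    · rw [h4, C0] at h2; simp at h2
    · rw [h4] at h2
      rcases Ccase j with ⟨p, q⟩ | ⟨p, q⟩ | ⟨p0, p, q⟩
      · rw [q] at h1; simp at h1
      · rw [Cev (j + 1) (by omega) (by omega)] at h2
        rw [q] at h1
        exact hne (by rw [Option.some.inj h1, Option.some.inj h2])
      · rw [Codd (j + 1) (by omega)] at h2
        rw [q] at h1
        exact hne (by rw [Option.some.inj h1, Option.some.inj h2])
  -- vertices of cycle edges
  have hv : ∀ j < l, ∀ u, u ∈ G.ends (f j) → ∃ i < l, u = y i ∧ (i = j ∨ i = nx l j) := by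
    intro j hj u hu
    rw [S.ed j hj, Sym2.mem_iff] at hu
    rcases hu with rfl | rfl
    · exact ⟨j, hj, rfl, Or.inl rfl⟩
    · exact ⟨nx l j, nx_lt hj, rfl, Or.inr rfl⟩
  have hmiss : ∀ j < l, ∀ u, u ∈ G.ends (f j) → ∀ a, C j = some a → G.Miss c u a := by
    intro j hj u hu a ha
    obtain ⟨i, hi, rfl, _⟩ := hv j hj u hu
    rcases cval j a ha with rfl | rfl
    · exact S.ma i hi
    · exact S.mb i hi
  have pp : G.PP d := by
    intro e e' u a he he' hde hde'
    by_cases hce : ∃ j, j < l ∧ e = f j
    · obtain ⟨j, hj, rfl⟩ := hce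
      by_cases hce' : ∃ j, j < l ∧ e' = f j
      · obtain ⟨j', hj', rfl⟩ := hce'
        rw [d1 j hj] at hde
        rw [d1 j' hj'] at hde'
        obtain ⟨i, hi, rfl, hij⟩ := hv j hj u he
        obtain ⟨i', hi', hii, hij'⟩ := hv j' hj' _ he'
        have hii := S.inj i hi i' hi' hii
        subst hii
        rcases hij with rfl | rfl
        · rcases hij' with h | h
          · rw [h]
          · exfalso
            rw [h] at hde
            exact C_ne j' hj' a hde' hde
        · rcases hij' with h | h
          · exfalso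
            rw [← h] at hde'
            exact C_ne j hj a hde hde'
          · rw [nx_inj h]
      · exfalso
        rw [d2 e' hce'] at hde'
        rw [d1 j hj] at hde
        exact hmiss j hj u he a hde e' he' hde'
    · rw [d2 e hce] at hde
      by_cases hce' : ∃ j, j < l ∧ e' = f j
      · exfalso
        obtain ⟨j', hj', rfl⟩ := hce'
        rw [d1 j' hj'] at hde'
        exact hmiss j' hj' u he' a hde' e he hde
      · rw [d2 e' hce'] at hde'
        exact S.pp e e' u a he he' hde hde'
  have m0 : G.Miss d (y 0) α := by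
    intro e he hde
    by_cases hce : ∃ j, j < l ∧ e = f j
    · obtain ⟨j, hj, rfl⟩ := hce
      rw [d1 j hj] at hde
      obtain ⟨i, hi, h0, hij⟩ := hv j hj _ he
      have h0' := S.inj 0 (by omega) i hi h0
      subst h0'
      rcases hij with h | h
      · rw [← h, C0] at hde; simp at hde
      · unfold nx at h
        split_ifs at h with h1
        · rw [Cev j (by omega) (by omega)] at hde
          exact hne (Option.some.inj hde).symm
    · rw [d2 e hce] at hde
      exact S.ma 0 (by omega) e he hde
  have m1 : G.Miss d (y 1) β := by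
    intro e he hde
    by_cases hce : ∃ j, j < l ∧ e = f j
    · obtain ⟨j, hj, rfl⟩ := hce
      rw [d1 j hj] at hde
      obtain ⟨i, hi, h0, hij⟩ := hv j hj _ he
      have h0' := S.inj 1 (by omega) i hi h0
      subst h0'
      rcases hij with h | h
      · rw [← h, Codd 1 (by norm_num)] at hde
        exact hne (Option.some.inj hde)
      · unfold nx at h
        split_ifs at h with h1
        · have : j = 0 := by omega
          rw [this, C0] at hde; simp at hde
    · rw [d2 e hce] at hde
      exact S.mb 1 (by omega) e he hde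
  have mo : ∀ v a, a ≠ α → a ≠ β → G.Miss c v a → G.Miss d v a := by
    intro v a ha hb hm e he hde
    by_cases hce : ∃ j, j < l ∧ e = f j
    · obtain ⟨j, hj, rfl⟩ := hce
      rw [d1 j hj] at hde
      rcases cval j a hde with h | h
      · exact ha h
      · exact hb h
    · rw [d2 e hce] at hde
      exact hm e he hde
  refine ⟨d, ⟨pp, inj, ?_, ?_, ?_, ?_⟩, m0, m1, mo, ?_⟩
  · intro i hi
    show (if i + 1 < l then i else pr i) ≤ i
    split_ifs with h1
    · exact le_refl _
    · exact leh i hi (by omega)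
  · intro i hi
    show G.ends (if i + 1 < l then f i else h i) = s(y (if i + 1 < l then i else pr i), y (i + 1))
    split_ifs with h1
    · rw [S.ed i (by omega)]
      have : nx l i = i + 1 := by unfold nx; split_ifs <;> omega
      rw [this]
    · exact edh i hi (by omega)
  · intro e
    rw [if_pos (by omega : 0 + 1 < l)]
    constructor
    · intro he
      by_cases hce : ∃ j, j < l ∧ e = f j
      · obtain ⟨j, hj, rfl⟩ := hce
        rw [d1 j hj] at he
        rcases Ccase j with ⟨p, q⟩ | ⟨p, q⟩ | ⟨p0, p, q⟩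
        · rw [p]
        · rw [q] at he; simp at he
        · rw [q] at he; simp at he
      · rw [d2 e hce] at he
        obtain ⟨j, hj, hej⟩ := (S.none_iff e).mp he
        exact absurd ⟨j, hj, hej⟩ hce
    · rintro rfl
      rw [d1 0 (by omega), C0]
  · intro i hi hi1
    split_ifs with h1
    · rw [d1 i (by omega)]
      rcases Ccase i with ⟨p, q⟩ | ⟨p, q⟩ | ⟨p0, p, q⟩
      · omega
      · exact ⟨α, q, 0, by omega, m0⟩
      · exact ⟨β, q, 1, by omega, m1⟩
    · obtain ⟨a, ha, j, hj, hm⟩ := colh i hi (by omega)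
      have hce : ¬ ∃ j, j < l ∧ h i = f j := by
        rintro ⟨j, hj, hej⟩
        have := (S.none_iff (h i)).mpr ⟨j, hj, hej⟩
        rw [this] at ha
        simp at ha
      rw [d2 _ hce]
      refine ⟨a, ha, ?_⟩
      by_cases haα : a = α
      · subst haα
        exact ⟨0, by omega, m0⟩
      · by_cases haβ : a = β
        · subst haβ
          exact ⟨1, by omega, m1⟩
        · exact ⟨j, hj, mo _ a haα haβ hm⟩
  · intro j hlj hjr a hm e he hde
    have hce : ¬ ∃ j, j < l ∧ e = f j := by
      rintro ⟨i, hi, rfl⟩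
      obtain ⟨i', hi', h0, _⟩ := hv i hi _ he
      have := inj j hjr i' (by omega) h0
      omega
    rw [d2 e hce] at hde
    exact hm e he hde

theorem main : PartTAS → PartTRE := by
  intro KIE V E _ _ G k Δ hG hdeg hk l r y f h pr α β c hl hodd hlr H
  obtain ⟨c1, hKP, m0, m1, mo, mt⟩ := aux hl hodd hlr H
  have key := KIE hG hdeg hk hKP (by omega : 1 ≤ r)
  refine ⟨?_, ?_⟩
  · intro i j hij hj a ha hb h1 h2
    exact key i j hij hj a (mo _ a ha hb h1) (mo _ a ha hb h2)
  · intro j hlj hjr
    refine ⟨fun hm => ?_, fun hm => ?_⟩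
    · exact key 0 j (by omega) hjr α m0 (mt j hlj hjr α hm)
    · exact key 1 j (by omega) hjr β m1 (mt j hlj hjr β hm)

end Pool.Agent.W992.KG.TRE
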